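import Mathlib

set_option autoImplicit false

/-!
Longest paths in connected graphs without an induced path on five vertices and without an
induced four-cycle: the combinatorial core, in terms of lists of vertices.
-/

namespace Pool.Agent.Lib.MP_288739_co

variable {V : Type*} (G : SimpleGraph V)

/-- A list of distinct vertices, consecutive ones adjacent. -/
def IsP (l : List V) : Prop := l.Nodup ∧ l.IsChain G.Adj

/-- A longest such list. -/
def IsLongest (l : List V) : Prop := IsP G l ∧ ∀ l', IsP G l' → l'.length ≤ l.length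

/-- Closed adjacency: equal or adjacent. -/
def CAdj (x y : V) : Prop := x = y ∨ G.Adj x y

/-- Elementary form of: no induced path on five vertices. -/
def P5Free : Prop := ∀ a b c d e, G.Adj a b → G.Adj b c → G.Adj c d → G.Adj d e →
  ¬ G.Adj a c → ¬ G.Adj a d → ¬ G.Adj a e → ¬ G.Adj b d → ¬ G.Adj b e → ¬ G.Adj c e → False

/-- Elementary form of: no induced four-cycle. -/
def C4Free : Prop := ∀ a b c d, G.Adj a b → G.Adj b c → G.Adj c d → G.Adj d a →
  ¬ G.Adj a c → ¬ G.Adj b d → a ≠ c → b ≠ d → False

/-- The vertex `x` lies on no induced five-cycle. -/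
def NoC5At (x : V) : Prop := ∀ b c d e, G.Adj x b → G.Adj b c → G.Adj c d → G.Adj d e →
  G.Adj e x → ¬ G.Adj x c → ¬ G.Adj x d → ¬ G.Adj b d → ¬ G.Adj b e → ¬ G.Adj c e → False

/-- The closed neighbourhood of `x` is maximal under inclusion. -/
def IsMax (x : V) : Prop :=
  ∀ y, (∀ w, CAdj G x w → CAdj G y w) → ∀ w, CAdj G y w → CAdj G x w

variable {G}

theorem CAdj.symm {x y : V} (h : CAdj G x y) : CAdj G y x := by
  rcases h with h | h
  · exact Or.inl h.symm
  · exact Or.inr h.symm

theorem CAdj.rfl' {x : V} : CAdj G x x := Or.inl rfl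

theorem CAdj.adj {x y : V} (h : CAdj G x y) (hne : x ≠ y) : G.Adj x y := by
  rcases h with h | h
  · exact absurd h hne
  · exact h

theorem not_cadj {x y : V} (h : ¬ CAdj G x y) : x ≠ y ∧ ¬ G.Adj x y :=
  ⟨fun e => h (Or.inl e), fun e => h (Or.inr e)⟩

theorem exists_isMax [Finite V] (z : V) : ∃ x, IsMax G x ∧ ∀ w, CAdj G z w → CAdj G x w := by
  classical
  have := Fintype.ofFinite V
  let f : V → ℕ := fun x => (Finset.univ.filter fun w => CAdj G x w).card
  obtain ⟨x, hx, hmax⟩ := Finset.exists_max_image
    (Finset.univ.filter fun x : V => ∀ w, CAdj G z w → CAdj G x w) f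
    ⟨z, by simp⟩
  rw [Finset.mem_filter] at hx
  refine ⟨x, ?_, hx.2⟩
  intro y hy
  have h1 := hmax y (by
    rw [Finset.mem_filter]
    exact ⟨Finset.mem_univ _, fun w hw => hy w (hx.2 w hw)⟩)
  have hsub : (Finset.univ.filter fun w => CAdj G x w) ⊆ (Finset.univ.filter fun w => CAdj G y w) := by
    intro w hw
    rw [Finset.mem_filter] at hw ⊢
    exact ⟨hw.1, hy w hw.2⟩
  have heq := Finset.eq_of_subset_of_card_le hsub h1
  intro w hw
  have : w ∈ (Finset.univ.filter fun w => CAdj G y w) := by simp [hw]
  rw [← heq, Finset.mem_filter] at this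
  exact this.2

/-- Two vertices with maximal closed neighbourhoods are never at distance two. -/
theorem cadj_of_common (hP : P5Free G) (hC : C4Free G) {x y z : V} (hx : IsMax G x)
    (hy : IsMax G y) (h5 : NoC5At G x) (hxz : CAdj G z x) (hzy : CAdj G z y) : CAdj G x y := by
  by_contra hxy
  have hxy' := not_cadj hxy
  have hzx' : z ≠ x := by
    rintro rfl
    exact hxy hzy
  have hzy' : z ≠ y := by
    rintro rfl
    exact hxy hxz.symm
  have azx := hxz.adj hzx'
  have azy := hzy.adj hzy'
  -- a vertex `x'` in `N[x] \ N[z]`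
  have e1 : ∃ x', CAdj G x x' ∧ ¬ CAdj G z x' := by
    by_contra hcon
    push Not at hcon
    exact hxy (hx z hcon y hzy)
  have e2 : ∃ y', CAdj G y y' ∧ ¬ CAdj G z y' := by
    by_contra hcon
    push Not at hcon
    exact hxy (hy z hcon x hxz).symm
  obtain ⟨x', hx1, hx2⟩ := e1
  obtain ⟨y', hy1, hy2⟩ := e2
  have hx2' := not_cadj hx2
  have hy2' := not_cadj hy2
  have nx : x ≠ x' := by
    rintro rfl
    exact hx2 hxz
  have ny : y ≠ y' := by
    rintro rfl
    exact hy2 hzy
  have ax := hx1.adj nx
  have ay := hy1.adj ny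
  -- `x'` is not adjacent to `y`
  have b1 : ¬ G.Adj x' y := fun h =>
    hC x x' y z ax h azy.symm azx hxy'.2 (fun h' => hx2'.2 h'.symm) hxy'.1 hx2'.1.symm
  have b2 : ¬ G.Adj y' x := fun h =>
    hC y y' x z ay h azx.symm azy (fun h' => hxy'.2 h'.symm) (fun h' => hy2'.2 h'.symm)
      hxy'.1.symm hy2'.1.symm
  by_cases h : G.Adj x' y'
  · exact h5 x' y' y z ax h ay.symm azy.symm azx (fun h' => b2 h'.symm) hxy'.2 b1
      (fun h' => hx2'.2 h'.symm) (fun h' => hy2'.2 h'.symm)
  · exact hP x' x z y y' ax.symm azx.symm azy ay (fun h' => hx2'.2 h'.symm) b1 h hxy'.2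
      (fun h' => b2 h'.symm) hy2'.2

theorem all_of_closed (hconn : G.Preconnected) (S : V → Prop) {x : V} (hx : S x)
    (hS : ∀ a b, S a → G.Adj a b → S b) (y : V) : S y := by
  obtain ⟨p⟩ := hconn x y
  induction p with
  | nil => exact hx
  | cons h p ih => exact ih (hS _ _ hx h)

/-- The vertices with maximal closed neighbourhood form a clique. -/
theorem cadj_of_isMax [Finite V] (hconn : G.Preconnected) (hP : P5Free G) (hC : C4Free G)
    (h5 : ∀ x, IsMax G x → NoC5At G x) {x y : V} (hx : IsMax G x) (hy : IsMax G y) :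
    CAdj G x y := by
  have key : ∀ z, ∃ w, IsMax G w ∧ CAdj G w z ∧ CAdj G x w := by
    intro z
    refine all_of_closed hconn (fun z => ∃ w, IsMax G w ∧ CAdj G w z ∧ CAdj G x w) (x := x)
      ⟨x, hx, CAdj.rfl', CAdj.rfl'⟩ ?_ z
    rintro a b ⟨w, hw, hwa, hxw⟩ hab
    obtain ⟨a', ha', hsub⟩ := exists_isMax (G := G) a
    refine ⟨a', ha', hsub b (Or.inr hab), ?_⟩
    -- `w` is a common closed neighbour of `x` and `a'`
    exact cadj_of_common hP hC hx ha' (h5 x hx) hxw.symm (hsub w hwa.symm).symm
  obtain ⟨w, hw, hwy, hxw⟩ := key y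
  exact cadj_of_common hP hC hx hy (h5 x hx) hxw.symm hwy

/-- If `v` has maximal closed neighbourhood, `c` is a neighbour of `v` and `c'` a neighbour of `c`
outside the closed neighbourhood of `v`, then `c` is complete to all vertices with maximal closed
neighbourhood. -/
theorem complete_of_mixed [Finite V] (hconn : G.Preconnected) (hP : P5Free G) (hC : C4Free G)
    (h5 : ∀ x, IsMax G x → NoC5At G x) {v c c' : V} (hv : IsMax G v) (hvc : G.Adj v c)
    (hcc : G.Adj c c') (hvc' : ¬ CAdj G v c') {x : V} (hx : IsMax G x) : CAdj G c x := by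
  by_contra hcx
  have hcx' := not_cadj hcx
  have hvc'' := not_cadj hvc'
  have hvx := cadj_of_isMax hconn hP hC h5 hv hx
  have nvx : v ≠ x := by
    rintro rfl
    exact hcx (Or.inr hvc.symm)
  have avx := hvx.adj nvx
  -- a vertex `d` in `N[x] \ N[v]`
  have e1 : ∃ d, CAdj G x d ∧ ¬ CAdj G v d := by
    by_contra hcon
    push Not at hcon
    exact hcx (hx v hcon c (Or.inr hvc)).symm
  obtain ⟨d, hd1, hd2⟩ := e1
  have hd2' := not_cadj hd2
  have nxd : x ≠ d := by
    rintro rfl
    exact hd2 hvx
  have axd := hd1.adj nxd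
  -- `c'` is not adjacent to `x`
  have b1 : ¬ G.Adj c' x := fun h =>
    hC c' c v x hcc.symm hvc.symm avx h.symm (fun h' => hvc''.2 h'.symm) hcx'.2
      hvc''.1.symm hcx'.1
  have b2 : ¬ G.Adj c d := fun h =>
    hC d c v x h.symm hvc.symm avx axd (fun h' => hd2'.2 h'.symm) hcx'.2 hd2'.1.symm hcx'.1
  by_cases h : G.Adj c' d
  · exact h5 v hv c c' d x hvc hcc h axd.symm avx.symm hvc''.2 hd2'.2 b2 hcx'.2 b1
  · exact hP c' c v x d hcc.symm hvc.symm avx axd (fun h' => hvc''.2 h'.symm) b1 h hcx'.2 b2
      hd2'.2

/-- Existence of a list of maximum length in a bounded family of lists. -/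
theorem exists_max_list {α : Type*} (p : List α → Prop) (l0 : List α) (h0 : p l0) (N : ℕ)
    (hN : ∀ l, p l → l.length ≤ N) : ∃ l, p l ∧ ∀ l', p l' → l'.length ≤ l.length := by
  classical
  let S : Set ℕ := {n | ∃ l, p l ∧ l.length = n}
  have hne : S.Nonempty := ⟨l0.length, l0, h0, rfl⟩
  have hbdd : BddAbove S := ⟨N, by rintro n ⟨l, hl, rfl⟩; exact hN l hl⟩
  obtain ⟨l, hl, hlen⟩ := Nat.sSup_mem hne hbdd
  refine ⟨l, hl, fun l' hl' => ?_⟩
  rw [hlen]
  exact le_csSup hbdd ⟨l', hl', rfl⟩

theorem length_le_of_isP [Finite V] {l : List V} (h : IsP G l) : l.length ≤ Nat.card V := by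
  have := Fintype.ofFinite V
  rw [Nat.card_eq_fintype_card]
  exact h.1.length_le_card

theorem exists_longest [Finite V] : ∃ l, IsLongest G l :=
  exists_max_list (IsP G) [] ⟨List.nodup_nil, List.IsChain.nil⟩ (Nat.card V)
    fun _ h => length_le_of_isP h

/-- A longest path that misses `v` starts with a non-neighbour of `v`. -/
theorem not_adj_head {l : List V} {v p : V} (hl : IsLongest G l) (hv : v ∉ l)
    (hp : l.head? = some p) : ¬ G.Adj v p := by
  intro h
  have := hl.2 (v :: l) ⟨List.nodup_cons.2 ⟨hv, hl.1.1⟩, by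
    rw [List.isChain_cons]
    refine ⟨?_, hl.1.2⟩
    intro y hy
    rw [hp] at hy
    simp only [Option.mem_def, Option.some.injEq] at hy
    rw [← hy]
    exact h⟩
  simp at this

/-- A longest path that misses `v` has no two consecutive neighbours of `v`. -/
theorem not_adj_consecutive {s t : List V} {v p q : V} (hl : IsLongest G (s ++ p :: q :: t))
    (hv : v ∉ s ++ p :: q :: t) (hp : G.Adj v p) (hq : G.Adj v q) : False := by
  have hc := hl.1.2
  rw [List.isChain_append_cons_cons] at hc
  have hP : IsP G (s ++ p :: v :: q :: t) := by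
    refine ⟨?_, ?_⟩
    · have : (s ++ p :: v :: q :: t).Perm (v :: (s ++ p :: q :: t)) := by
        have h1 : (p :: v :: q :: t).Perm (v :: p :: q :: t) := List.Perm.swap _ _ _
        exact (List.Perm.append_left s h1).trans List.perm_middle
      rw [this.nodup_iff]
      exact List.nodup_cons.2 ⟨hv, hl.1.1⟩
    · rw [List.isChain_append_cons_cons]
      refine ⟨hc.1, hp.symm, ?_⟩
      rw [List.isChain_cons_cons]
      exact ⟨hq, hc.2.2⟩
  have := hl.2 _ hP
  simp at this

/-- The main case: no vertex with maximal closed neighbourhood lies on an induced five-cycle. -/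
theorem exists_gallai_main [Finite V] (hconn : G.Connected) (hP : P5Free G) (hC : C4Free G)
    (h5 : ∀ x, IsMax G x → NoC5At G x) : ∃ v, ∀ l, IsLongest G l → v ∈ l := by
  classical
  -- `Y v`: `v` is complete to all vertices with maximal closed neighbourhood
  let Y : V → Prop := fun y => ∀ x, IsMax G x → CAdj G y x
  have hmix : ∀ {v c c' : V}, IsMax G v → G.Adj v c → G.Adj c c' → ¬ Y c → CAdj G v c' := by
    intro v c c' hv h1 h2 h3
    by_contra hcon
    exact h3 fun x hx => complete_of_mixed hconn.preconnected hP hC h5 hv h1 h2 hcon hx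
  have hXY : ∀ x, IsMax G x → Y x := fun x hx y hy =>
    cadj_of_isMax hconn.preconnected hP hC h5 hx hy
  -- a longest path `Q` outside `Y`
  obtain ⟨Q, ⟨hQP, hQY⟩, hQmax⟩ := exists_max_list
    (fun l : List V => IsP G l ∧ ∀ q ∈ l, ¬ Y q) []
    ⟨⟨List.nodup_nil, List.IsChain.nil⟩, by simp⟩ (Nat.card V)
    (fun _ h => length_le_of_isP h.1)
  -- a vertex `v` complete to `Q`
  have hv : ∃ v, IsMax G v ∧ ∀ q ∈ Q, G.Adj v q := by
    cases Q with
    | nil =>
      obtain ⟨z⟩ := hconn.nonempty
      obtain ⟨x, hx, -⟩ := exists_isMax (G := G) z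
      exact ⟨x, hx, by simp⟩
    | cons q Q' =>
      obtain ⟨v, hv, hqv⟩ := exists_isMax (G := G) q
      refine ⟨v, hv, ?_⟩
      have hstart : G.Adj v q := by
        refine (hqv q CAdj.rfl').adj ?_
        rintro rfl
        exact hQY v (by simp) (hXY v hv)
      -- propagate along the chain
      have prop : ∀ (l : List V) (a : V), (a :: l).IsChain G.Adj → (∀ q ∈ a :: l, ¬ Y q) →
          G.Adj v a → ∀ q ∈ a :: l, G.Adj v q := by
        intro l
        induction l with
        | nil =>
          intro a _ _ ha q hq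
          simp only [List.mem_singleton] at hq
          rw [hq]
          exact ha
        | cons b l ih =>
          intro a hc hY ha q hq
          rw [List.isChain_cons_cons] at hc
          have hb : G.Adj v b := by
            refine (hmix hv ha hc.1 (hY a (by simp))).adj ?_
            rintro rfl
            exact hY v (by simp) (hXY v hv)
          rcases List.mem_cons.1 hq with rfl | hq
          · exact ha
          · exact ih b hc.2 (fun q hq => hY q (List.mem_cons_of_mem _ hq)) hb q hq
      exact prop Q' q hQP.2 hQY hstart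
  obtain ⟨v, hvX, hvQ⟩ := hv
  refine ⟨v, fun l hl => ?_⟩
  by_contra hvl
  -- no vertex of `l` outside `Y` is adjacent to `v`
  have step1 : ∀ p ∈ l, ¬ Y p → ¬ G.Adj v p := by
    intro p hp hY hvp
    obtain ⟨s, t, rfl⟩ := List.append_of_mem hp
    cases t with
    | cons q t =>
      have hc := hl.1.2
      rw [List.isChain_append_cons_cons] at hc
      have hq : G.Adj v q := by
        refine (hmix hvX hvp hc.2.1 hY).adj ?_
        rintro rfl
        exact hvl (by simp)
      exact not_adj_consecutive hl hvl hvp hq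
    | nil =>
      rcases List.eq_nil_or_concat s with rfl | ⟨s', r, rfl⟩
      · exact not_adj_head hl hvl rfl hvp
      · have he : (s' ++ [r]) ++ [p] = s' ++ r :: p :: [] := by simp
        rw [List.concat_eq_append] at *
        rw [he] at hl hvl
        have hc := hl.1.2
        rw [List.isChain_append_cons_cons] at hc
        have hr : G.Adj v r := by
          refine (hmix hvX hvp hc.2.1.symm hY).adj ?_
          rintro rfl
          exact hvl (by simp)
        exact not_adj_consecutive hl hvl hr hvp
  -- split `l` at the first vertex of `Y`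
  have hsplit : l.takeWhile (fun a => decide (¬ Y a)) ++ l.dropWhile (fun a => decide (¬ Y a)) = l :=
    List.takeWhile_append_dropWhile
  have hT : IsP G (l.takeWhile (fun a => decide (¬ Y a))) ∧
      ∀ q ∈ l.takeWhile (fun a => decide (¬ Y a)), ¬ Y q := by
    refine ⟨⟨?_, ?_⟩, ?_⟩
    · exact hl.1.1.sublist (List.takeWhile_sublist _)
    · have := hl.1.2
      rw [← hsplit, List.isChain_append] at this
      exact this.1
    · intro q hq
      have := List.mem_takeWhile_imp hq
      simpa using this
  have hTle := hQmax _ hT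
  -- the new path `Q ++ v :: rest`
  have hrest : IsP G (Q ++ v :: l.dropWhile (fun a => decide (¬ Y a))) := by
    have hdropsub : ∀ a ∈ l.dropWhile (fun a => decide (¬ Y a)), a ∈ l := fun a ha =>
      (List.dropWhile_sublist _).subset ha
    refine ⟨?_, ?_⟩
    · rw [List.nodup_append]
      refine ⟨hQP.1, ?_, ?_⟩
      · rw [List.nodup_cons]
        exact ⟨fun h => hvl (hdropsub v h), hl.1.1.sublist (List.dropWhile_sublist _)⟩
      · intro a ha b hb hab
        subst hab
        rcases List.mem_cons.1 hb with rfl | hb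
        · exact hQY _ ha (hXY _ hvX)
        · exact step1 a (hdropsub a hb) (hQY a ha) (hvQ a ha)
    · rw [List.isChain_append]
      refine ⟨hQP.2, ?_, ?_⟩
      · rw [List.isChain_cons]
        refine ⟨?_, ?_⟩
        · intro y hy
          have hy' : y ∈ l.dropWhile (fun a => decide (¬ Y a)) := List.mem_of_mem_head? hy
          have hyY : Y y := by
            have := List.head?_dropWhile_not (fun a => decide (¬ Y a)) l
            rw [Option.mem_def] at hy
            rw [hy] at this
            simpa using this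
          refine (hyY v hvX).symm.adj ?_
          rintro rfl
          exact hvl (hdropsub _ hy')
        · have := hl.1.2
          rw [← hsplit, List.isChain_append] at this
          exact this.2.1
      · intro x hx y hy
        simp only [List.head?_cons, Option.mem_def, Option.some.injEq] at hy
        subst hy
        exact (hvQ x (List.mem_of_getLast? hx)).symm
  have hlen := hl.2 _ hrest
  have hlen' : l.length = (l.takeWhile (fun a => decide (¬ Y a))).length +
      (l.dropWhile (fun a => decide (¬ Y a))).length := by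
    rw [← List.length_append, hsplit]
  simp only [List.length_append, List.length_cons] at hlen
  omega

end Pool.Agent.Lib.MP_288739_co
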