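import Pool.Agent.Lib.MP_288739_co.Five

set_option autoImplicit false

/-!
From the absence of induced subgraphs to the elementary forms used in the core.
-/

namespace Pool.Agent.Lib.MP_288739_co

variable {V : Type*} {G : SimpleGraph V}

theorem p5free_of (h : ¬ (SimpleGraph.pathGraph 5).IsIndContained G) : P5Free G := by
  intro a b c d e h1 h2 h3 h4 n1 n2 n3 n4 n5 n6
  apply h
  have m1 : a ≠ b := h1.ne
  have m2 : b ≠ c := h2.ne
  have m3 : c ≠ d := h3.ne
  have m4 : d ≠ e := h4.ne
  have m5 : a ≠ c := by rintro rfl; exact n2 h3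
  have m6 : a ≠ d := by rintro rfl; exact n3 h4
  have m7 : a ≠ e := by rintro rfl; exact n2 h4.symm
  have m8 : b ≠ d := by rintro rfl; exact n2 h1
  have m9 : b ≠ e := by rintro rfl; exact n3 h1
  have m10 : c ≠ e := by rintro rfl; exact n5 h2
  have e1 := h1.symm
  have e2 := h2.symm
  have e3 := h3.symm
  have e4 := h4.symm
  have k1 : ¬ G.Adj c a := fun h => n1 h.symm
  have k2 : ¬ G.Adj d a := fun h => n2 h.symm
  have k3 : ¬ G.Adj e a := fun h => n3 h.symm
  have k4 : ¬ G.Adj d b := fun h => n4 h.symm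
  have k5 : ¬ G.Adj e b := fun h => n5 h.symm
  have k6 : ¬ G.Adj e c := fun h => n6 h.symm
  have l1 := m1.symm
  have l2 := m2.symm
  have l3 := m3.symm
  have l4 := m4.symm
  have l5 := m5.symm
  have l6 := m6.symm
  have l7 := m7.symm
  have l8 := m8.symm
  have l9 := m9.symm
  have l10 := m10.symm
  refine ⟨⟨⟨![a, b, c, d, e], ?_⟩, ?_⟩⟩
  · intro i j hij
    fin_cases i <;> fin_cases j <;> simp_all
  · intro i j
    rw [SimpleGraph.pathGraph_adj]
    fin_cases i <;> fin_cases j <;> simp [*]

theorem c4free_of (h : ¬ (SimpleGraph.cycleGraph 4).IsIndContained G) : C4Free G := by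
  intro a b c d h1 h2 h3 h4 n1 n2 m5 m6
  apply h
  have m1 : a ≠ b := h1.ne
  have m2 : b ≠ c := h2.ne
  have m3 : c ≠ d := h3.ne
  have m4 : d ≠ a := h4.ne
  have e1 := h1.symm
  have e2 := h2.symm
  have e3 := h3.symm
  have e4 := h4.symm
  have k1 : ¬ G.Adj c a := fun h => n1 h.symm
  have k2 : ¬ G.Adj d b := fun h => n2 h.symm
  have l1 := m1.symm
  have l2 := m2.symm
  have l3 := m3.symm
  have l4 := m4.symm
  have l5 := m5.symm
  have l6 := m6.symm
  refine ⟨⟨⟨![a, b, c, d], ?_⟩, ?_⟩⟩
  · intro i j hij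
    fin_cases i <;> fin_cases j <;> simp_all
  · intro i j
    have hc : ∀ i j : Fin 4, (SimpleGraph.cycleGraph 4).Adj i j ↔ (j = i + 1 ∨ i = j + 1) := by
      decide
    rw [hc]
    fin_cases i <;> fin_cases j <;> simp [*]

/-- The support of a longest path is a longest list. -/
theorem isLongest_support {a b : V} (p : G.Walk a b) (hp : p.IsPath)
    (hmax : ∀ (c d : V) (q : G.Walk c d), q.IsPath → q.support.length ≤ p.support.length) :
    IsLongest G p.support := by
  refine ⟨⟨hp.support_nodup, p.isChain_adj_support⟩, ?_⟩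
  rintro l' ⟨hnd, hch⟩
  by_cases hne : l' = []
  · rw [hne]
    simp
  · have hs := SimpleGraph.Walk.support_ofSupport hne hch
    have := hmax _ _ (SimpleGraph.Walk.ofSupport l' hne hch) (by
      rw [SimpleGraph.Walk.isPath_def, hs]
      exact hnd)
    rw [hs] at this
    exact this

/-- A longest path exists in every nonempty finite graph. -/
theorem exists_longest_walk [Finite V] [Nonempty V] (G : SimpleGraph V) :
    ∃ (a b : V) (p : G.Walk a b), p.IsPath ∧
      ∀ (c d : V) (q : G.Walk c d), q.IsPath → q.support.length ≤ p.support.length := by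
  obtain ⟨l, hl⟩ := exists_longest (G := G)
  obtain ⟨v⟩ := ‹Nonempty V›
  have hne : l ≠ [] := by
    rintro rfl
    have := hl.2 [v] ⟨by simp, List.IsChain.singleton v⟩
    simp at this
  have hs := SimpleGraph.Walk.support_ofSupport hne hl.1.2
  refine ⟨_, _, SimpleGraph.Walk.ofSupport l hne hl.1.2, ?_, ?_⟩
  · rw [SimpleGraph.Walk.isPath_def, hs]
    exact hl.1.1
  · intro c d q hq
    rw [hs]
    exact hl.2 _ ⟨hq.support_nodup, q.isChain_adj_support⟩

end Pool.Agent.Lib.MP_288739_co
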