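import Pool.Agent.Lib.MP_288739_co.Core

set_option autoImplicit false

/-!
The case in which some vertex with maximal closed neighbourhood lies on an induced five-cycle:
the graph is then obtained from a five-cycle by replacing vertices by cliques, and it has a
Hamiltonian path.
-/

namespace Pool.Agent.Lib.MP_288739_co

variable {V : Type*} {G : SimpleGraph V}

/-- Equal or consecutive modulo five. -/
abbrev Near (i j : Fin 5) : Prop := j = i ∨ j = i + 1 ∨ i = j + 1

/-- `b` is an induced five-cycle (in terms of closed adjacency). -/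
def IsC5 (G : SimpleGraph V) (b : Fin 5 → V) : Prop := ∀ i j, CAdj G (b i) (b j) ↔ Near i j

theorem near_ext : ∀ i j : Fin 5, (∀ k, Near i k ↔ Near j k) → i = j := by decide

theorem bool_pattern : ∀ s : Fin 5 → Bool,
    (∀ i, ¬ (s i = true ∧ s (i + 1) = false ∧ s (i + 2) = true)) →
    (∀ i, ¬ (s i = true ∧ s (i + 1) = false ∧ s (i + 2) = false ∧ s (i + 3) = false)) →
    (∀ i, ¬ (s i = true ∧ s (i + 4) = false ∧ s (i + 3) = false ∧ s (i + 2) = false)) →
    (∀ i, s i = true) ∨ (∀ i, s i = false) ∨ ∃ i, ∀ k, s k = true ↔ Near i k := by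
  decide

theorem IsC5.inj {b : Fin 5 → V} (hb : IsC5 G b) {i j : Fin 5} (h : b i = b j) : i = j := by
  apply near_ext
  intro k
  rw [← hb i k, ← hb j k, h]

theorem IsC5.adj {b : Fin 5 → V} (hb : IsC5 G b) {i j : Fin 5} (h : Near i j) (hne : i ≠ j) :
    G.Adj (b i) (b j) :=
  ((hb i j).2 h).adj fun e => hne (hb.inj e)

theorem IsC5.not_adj {b : Fin 5 → V} (hb : IsC5 G b) {i j : Fin 5} (h : ¬ Near i j) :
    ¬ G.Adj (b i) (b j) := fun e => h ((hb i j).1 (Or.inr e))

/-- The possible closed traces of a vertex on an induced five-cycle. -/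
theorem pattern (hP : P5Free G) (hC : C4Free G) {b : Fin 5 → V} (hb : IsC5 G b) (w : V) :
    (∀ i, CAdj G w (b i)) ∨ (∀ i, ¬ CAdj G w (b i)) ∨ ∃ i, ∀ k, CAdj G w (b k) ↔ Near i k := by
  classical
  have hadj : ∀ {i j : Fin 5}, CAdj G w (b i) → ¬ CAdj G w (b j) → Near i j → G.Adj w (b i) := by
    intro i j h1 h2 h3
    refine h1.adj ?_
    rintro rfl
    exact h2 ((hb i j).2 h3)
  have c1 : ∀ i, ¬ (CAdj G w (b i) ∧ ¬ CAdj G w (b (i + 1)) ∧ CAdj G w (b (i + 2))) := by
    rintro i ⟨h1, h2, h3⟩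
    have n1 : Near i (i + 1) := (by decide : ∀ i : Fin 5, Near i (i + 1)) i
    have n2 : Near (i + 2) (i + 1) := (by decide : ∀ i : Fin 5, Near (i + 2) (i + 1)) i
    have n3 : Near (i + 1) (i + 2) := (by decide : ∀ i : Fin 5, Near (i + 1) (i + 2)) i
    have n4 : ¬ Near i (i + 2) := (by decide : ∀ i : Fin 5, ¬ Near i (i + 2)) i
    have e1 : i ≠ i + 1 := (by decide : ∀ i : Fin 5, i ≠ i + 1) i
    have e2 : i + 1 ≠ i + 2 := (by decide : ∀ i : Fin 5, i + 1 ≠ i + 2) i
    have e3 : i ≠ i + 2 := (by decide : ∀ i : Fin 5, i ≠ i + 2) i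
    have a1 := hadj h1 h2 n1
    have a2 := hadj h3 h2 n2
    exact hC w (b i) (b (i + 1)) (b (i + 2)) a1 (hb.adj n1 e1) (hb.adj n3 e2) a2.symm
      (not_cadj h2).2 (hb.not_adj n4) (not_cadj h2).1 (fun e => e3 (hb.inj e))
  have c2 : ∀ i, ¬ (CAdj G w (b i) ∧ ¬ CAdj G w (b (i + 1)) ∧ ¬ CAdj G w (b (i + 2)) ∧
      ¬ CAdj G w (b (i + 3))) := by
    rintro i ⟨h1, h2, h3, h4⟩
    have n1 : Near i (i + 1) := (by decide : ∀ i : Fin 5, Near i (i + 1)) i
    have n2 : Near (i + 1) (i + 2) := (by decide : ∀ i : Fin 5, Near (i + 1) (i + 2)) i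
    have n3 : Near (i + 2) (i + 3) := (by decide : ∀ i : Fin 5, Near (i + 2) (i + 3)) i
    have n4 : ¬ Near i (i + 2) := (by decide : ∀ i : Fin 5, ¬ Near i (i + 2)) i
    have n5 : ¬ Near i (i + 3) := (by decide : ∀ i : Fin 5, ¬ Near i (i + 3)) i
    have n6 : ¬ Near (i + 1) (i + 3) := (by decide : ∀ i : Fin 5, ¬ Near (i + 1) (i + 3)) i
    have e1 : i ≠ i + 1 := (by decide : ∀ i : Fin 5, i ≠ i + 1) i
    have e2 : i + 1 ≠ i + 2 := (by decide : ∀ i : Fin 5, i + 1 ≠ i + 2) i
    have e3 : i + 2 ≠ i + 3 := (by decide : ∀ i : Fin 5, i + 2 ≠ i + 3) i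
    exact hP w (b i) (b (i + 1)) (b (i + 2)) (b (i + 3)) (hadj h1 h2 n1) (hb.adj n1 e1)
      (hb.adj n2 e2) (hb.adj n3 e3) (not_cadj h2).2 (not_cadj h3).2 (not_cadj h4).2
      (hb.not_adj n4) (hb.not_adj n5) (hb.not_adj n6)
  have c3 : ∀ i, ¬ (CAdj G w (b i) ∧ ¬ CAdj G w (b (i + 4)) ∧ ¬ CAdj G w (b (i + 3)) ∧
      ¬ CAdj G w (b (i + 2))) := by
    rintro i ⟨h1, h2, h3, h4⟩
    have n1 : Near i (i + 4) := (by decide : ∀ i : Fin 5, Near i (i + 4)) i
    have n2 : Near (i + 4) (i + 3) := (by decide : ∀ i : Fin 5, Near (i + 4) (i + 3)) i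
    have n3 : Near (i + 3) (i + 2) := (by decide : ∀ i : Fin 5, Near (i + 3) (i + 2)) i
    have n4 : ¬ Near i (i + 3) := (by decide : ∀ i : Fin 5, ¬ Near i (i + 3)) i
    have n5 : ¬ Near i (i + 2) := (by decide : ∀ i : Fin 5, ¬ Near i (i + 2)) i
    have n6 : ¬ Near (i + 4) (i + 2) := (by decide : ∀ i : Fin 5, ¬ Near (i + 4) (i + 2)) i
    have e1 : i ≠ i + 4 := (by decide : ∀ i : Fin 5, i ≠ i + 4) i
    have e2 : i + 4 ≠ i + 3 := (by decide : ∀ i : Fin 5, i + 4 ≠ i + 3) i
    have e3 : i + 3 ≠ i + 2 := (by decide : ∀ i : Fin 5, i + 3 ≠ i + 2) i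
    exact hP w (b i) (b (i + 4)) (b (i + 3)) (b (i + 2)) (hadj h1 h2 n1) (hb.adj n1 e1)
      (hb.adj n2 e2) (hb.adj n3 e3) (not_cadj h2).2 (not_cadj h3).2 (not_cadj h4).2
      (hb.not_adj n4) (hb.not_adj n5) (hb.not_adj n6)
  have := bool_pattern (fun i => decide (CAdj G w (b i)))
    (by simpa using c1) (by simpa using c2) (by simpa using c3)
  simpa using this

/-- Replacing a vertex of the five-cycle by a vertex of the same class. -/
theorem IsC5.update {b : Fin 5 → V} (hb : IsC5 G b) {i : Fin 5} {w : V}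
    (hw : ∀ k, CAdj G w (b k) ↔ Near i k) : IsC5 G (Function.update b i w) := by
  intro j k
  by_cases hj : j = i
  · subst hj
    by_cases hk : k = j
    · subst hk
      simp only [Function.update_self]
      exact ⟨fun _ => Or.inl rfl, fun _ => CAdj.rfl'⟩
    · rw [Function.update_self, Function.update_of_ne hk]
      exact hw k
  · by_cases hk : k = i
    · subst hk
      rw [Function.update_self, Function.update_of_ne hj]
      constructor
      · intro h
        exact (by decide : ∀ j k : Fin 5, Near k j → Near j k) j k ((hw j).1 h.symm)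
      · intro h
        apply CAdj.symm
        rw [hw j]
        exact (by decide : ∀ j k : Fin 5, Near j k → Near k j) j k h
    · rw [Function.update_of_ne hj, Function.update_of_ne hk]
      exact hb j k

theorem near_aux1 : ∀ i j i' : Fin 5, Near i j → (∀ k, k ≠ i → (Near i' k ↔ Near j k)) →
    Near i' i := by decide

theorem near_aux2 : ∀ i j : Fin 5, ∃ k, k ≠ i ∧ Near j k := by decide

theorem near_aux3 : ∀ i j : Fin 5, ∃ k, k ≠ i ∧ ¬ Near j k := by decide

theorem class_near (hP : P5Free G) (hC : C4Free G) {b : Fin 5 → V} (hb : IsC5 G b) {i j : Fin 5}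
    {w w' : V} (hw : ∀ k, CAdj G w (b k) ↔ Near i k) (hw' : ∀ k, CAdj G w' (b k) ↔ Near j k)
    (hij : Near i j) : CAdj G w' w := by
  have hb' := hb.update hw
  have hi : Function.update b i w i = w := Function.update_self ..
  rcases pattern hP hC hb' w' with h | h | ⟨i', h⟩
  · rw [← hi]
    exact h i
  · exfalso
    obtain ⟨k, hk, hjk⟩ := near_aux2 i j
    have := h k
    rw [Function.update_of_ne hk] at this
    exact this ((hw' k).2 hjk)
  · rw [← hi, h i]
    apply near_aux1 i j i' hij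
    intro k hk
    rw [← h k, Function.update_of_ne hk]
    exact hw' k

theorem class_none (hP : P5Free G) (hC : C4Free G) {b : Fin 5 → V} (hb : IsC5 G b) {i : Fin 5}
    {w w' : V} (hw : ∀ k, CAdj G w (b k) ↔ Near i k) (hw' : ∀ k, ¬ CAdj G w' (b k)) :
    ¬ CAdj G w' w := by
  have hb' := hb.update hw
  have hi : Function.update b i w i = w := Function.update_self ..
  rcases pattern hP hC hb' w' with h | h | ⟨i', h⟩
  · exfalso
    have h1 := h (i + 1)
    have hne : i + 1 ≠ i := (by decide : ∀ i : Fin 5, i + 1 ≠ i) i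
    rw [Function.update_of_ne hne] at h1
    exact hw' _ h1
  · rw [← hi]
    exact h i
  · exfalso
    obtain ⟨k, hk, hjk⟩ := near_aux2 i i'
    have := (h k).2 hjk
    rw [Function.update_of_ne hk] at this
    exact hw' _ this

theorem class_all (hP : P5Free G) (hC : C4Free G) {b : Fin 5 → V} (hb : IsC5 G b) {i : Fin 5}
    {w w' : V} (hw : ∀ k, CAdj G w (b k) ↔ Near i k) (hw' : ∀ k, CAdj G w' (b k)) :
    CAdj G w' w := by
  have hb' := hb.update hw
  have hi : Function.update b i w i = w := Function.update_self ..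
  rcases pattern hP hC hb' w' with h | h | ⟨i', h⟩
  · rw [← hi]
    exact h i
  · exfalso
    have h1 := h (i + 1)
    have hne : i + 1 ≠ i := (by decide : ∀ i : Fin 5, i + 1 ≠ i) i
    rw [Function.update_of_ne hne] at h1
    exact h1 (hw' _)
  · exfalso
    obtain ⟨k, hk, hjk⟩ := near_aux3 i i'
    apply hjk
    rw [← h k, Function.update_of_ne hk]
    exact hw' k

/-- If a vertex with maximal closed neighbourhood lies on the induced five-cycle `b`, then no
vertex is complete to `b`. -/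
theorem no_all (hP : P5Free G) (hC : C4Free G) {b : Fin 5 → V} (hb : IsC5 G b)
    (hmax : IsMax G (b 0)) {a : V} (ha : ∀ k, CAdj G a (b k)) : False := by
  have h02 : ¬ CAdj G (b 0) (b 2) := by
    rw [hb 0 2]
    decide
  apply h02
  refine hmax a ?_ (b 2) (ha 2)
  intro w hw
  rcases pattern hP hC hb w with h | h | ⟨i, h⟩
  · by_contra hcon
    have hcon' := not_cadj hcon
    have h20 : ¬ CAdj G (b 2) (b 0) := fun h' => h02 h'.symm
    have key : ∀ {u : V}, (∀ k, CAdj G u (b k)) → G.Adj u (b 0) ∧ G.Adj u (b 2) := by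
      intro u hu
      refine ⟨(hu 0).adj ?_, (hu 2).adj ?_⟩
      · rintro rfl
        exact h02 (hu 2)
      · rintro rfl
        exact h20 (hu 0)
    obtain ⟨a1, a2⟩ := key ha
    obtain ⟨w1, w2⟩ := key h
    exact hC a (b 0) w (b 2) a1 w1.symm w2 a2.symm hcon'.2 (not_cadj h02).2 hcon'.1
      (not_cadj h02).1
  · exact absurd hw.symm (h 0)
  · exact class_all hP hC hb h ha

theorem chain_app {R : V → V → Prop} {l₁ l₂ : List V} (h1 : l₁.IsChain R) (h2 : l₂.IsChain R)
    (h : ∀ x ∈ l₁, ∀ y, l₂.head? = some y → R x y) : (l₁ ++ l₂).IsChain R := by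
  rw [List.isChain_append]
  exact ⟨h1, h2, fun x hx y hy => h x (List.mem_of_getLast? hx) y hy⟩

/-- The five-cycle case: there is a Hamiltonian path. -/
theorem exists_ham [Finite V] (hconn : G.Connected) (hP : P5Free G) (hC : C4Free G)
    {b : Fin 5 → V} (hb : IsC5 G b) (hmax : IsMax G (b 0)) : ∃ l, IsP G l ∧ ∀ w, w ∈ l := by
  classical
  have := Fintype.ofFinite V
  -- every vertex has a class
  have hcls : ∀ w, ∃ i, ∀ k, CAdj G w (b k) ↔ Near i k := by
    intro w
    refine all_of_closed hconn.preconnected (fun w => ∃ i, ∀ k, CAdj G w (b k) ↔ Near i k)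
      (x := b 0) ⟨0, fun k => hb 0 k⟩ ?_ w
    rintro u r ⟨i, hi⟩ hur
    rcases pattern hP hC hb r with h | h | h
    · exact (no_all hP hC hb hmax h).elim
    · exact absurd (Or.inr hur.symm) (class_none hP hC hb hi h)
    · exact h
  choose cls hcl using hcls
  have hadj : ∀ {w w' : V}, Near (cls w) (cls w') → w ≠ w' → G.Adj w w' := fun h hne =>
    (class_near hP hC hb (hcl _) (hcl _) h).symm.adj hne
  have hclsb : ∀ i, cls (b i) = i := by
    intro i
    apply near_ext
    intro k
    rw [← hcl (b i) k, hb i k]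
  let L : Fin 5 → List V := fun i => (Finset.univ.filter fun w => cls w = i).toList
  have hL : ∀ i w, w ∈ L i ↔ cls w = i := by
    intro i w
    simp [L]
  have hLne : ∀ i, L i ≠ [] := by
    intro i h
    have : b i ∈ L i := (hL i _).2 (hclsb i)
    rw [h] at this
    simp at this
  have hLnd : ∀ i, (L i).Nodup := fun i => Finset.nodup_toList _
  have hLch : ∀ i, (L i).IsChain G.Adj := by
    intro i
    apply List.Pairwise.isChain
    rw [List.pairwise_iff_getElem]
    intro p q hp hq hpq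
    have h1 := (hL i _).1 (List.getElem_mem hp)
    have h2 := (hL i _).1 (List.getElem_mem hq)
    apply hadj
    · rw [h1, h2]
      exact Or.inl rfl
    · intro e
      have := (List.Nodup.getElem_inj_iff (hLnd i)).1 e
      omega
  have happ : ∀ (i j : Fin 5) (l : List V), Near i j → i ≠ j → ((L j) ++ l).IsChain G.Adj →
      (L i ++ (L j ++ l)).IsChain G.Adj := by
    intro i j l hn hne hc
    apply chain_app (hLch i) hc
    intro x hx y hy
    have hy' : y ∈ L j := by
      rw [List.head?_append_of_ne_nil _ (hLne j)] at hy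
      exact List.mem_of_mem_head? hy
    have h1 := (hL i x).1 hx
    have h2 := (hL j y).1 hy'
    apply hadj
    · rw [h1, h2]
      exact hn
    · rintro rfl
      exact hne (h1.symm.trans h2)
  refine ⟨L 0 ++ (L 1 ++ (L 2 ++ (L 3 ++ (L 4 ++ [])))), ⟨?_, ?_⟩, ?_⟩
  · rw [List.append_nil]
    simp only [List.nodup_append, List.mem_append, hL]
    refine ⟨hLnd 0, ⟨hLnd 1, ⟨hLnd 2, ⟨hLnd 3, hLnd 4, ?_⟩, ?_⟩, ?_⟩, ?_⟩
    all_goals
      intro x hx y hy hxy
      subst hxy
      revert hy
      rw [hx]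
      decide
  · apply happ 0 1 _ (by decide) (by decide)
    apply happ 1 2 _ (by decide) (by decide)
    apply happ 2 3 _ (by decide) (by decide)
    apply happ 3 4 _ (by decide) (by decide)
    rw [List.append_nil]
    exact hLch 4
  · intro w
    simp only [List.mem_append, hL, List.not_mem_nil, or_false]
    have : ∀ i : Fin 5, i = 0 ∨ i = 1 ∨ i = 2 ∨ i = 3 ∨ i = 4 := by decide
    exact this (cls w)

theorem mem_of_ham [Finite V] {l0 : List V} (h0 : IsP G l0) (hall : ∀ w, w ∈ l0) {l : List V}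
    (hl : IsLongest G l) (w : V) : w ∈ l := by
  classical
  have := Fintype.ofFinite V
  have h1 := hl.2 l0 h0
  have h2 : l0.toFinset = Finset.univ := by
    ext v
    simp [hall v]
  have h3 : l0.length = Fintype.card V := by
    rw [← List.toFinset_card_of_nodup h0.1, h2, Finset.card_univ]
  have h4 : l.toFinset = Finset.univ := by
    apply Finset.eq_univ_of_card
    rw [List.toFinset_card_of_nodup hl.1.1]
    apply le_antisymm
    · rw [← List.toFinset_card_of_nodup hl.1.1]
      exact Finset.card_le_univ _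
    · rw [← h3]
      exact h1
  have : w ∈ l.toFinset := by
    rw [h4]
    exact Finset.mem_univ w
  exact List.mem_toFinset.1 this

theorem isC5_of {x b c d e : V} (h1 : G.Adj x b) (h2 : G.Adj b c) (h3 : G.Adj c d)
    (h4 : G.Adj d e) (h5 : G.Adj e x) (n1 : ¬ G.Adj x c) (n2 : ¬ G.Adj x d) (n3 : ¬ G.Adj b d)
    (n4 : ¬ G.Adj b e) (n5 : ¬ G.Adj c e) : IsC5 G ![x, b, c, d, e] := by
  have m1 : x ≠ c := by rintro rfl; exact n5 h5.symm
  have m2 : x ≠ d := by rintro rfl; exact n3 h1.symm
  have m3 : b ≠ d := by rintro rfl; exact n2 h1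
  have m4 : b ≠ e := by rintro rfl; exact n5 h2.symm
  have m5 : c ≠ e := by rintro rfl; exact n1 h5.symm
  intro i j
  have e1 := h1.symm
  have e2 := h2.symm
  have e3 := h3.symm
  have e4 := h4.symm
  have e5 := h5.symm
  have k1 : ¬ G.Adj c x := fun h => n1 h.symm
  have k2 : ¬ G.Adj d x := fun h => n2 h.symm
  have k3 : ¬ G.Adj d b := fun h => n3 h.symm
  have k4 : ¬ G.Adj e b := fun h => n4 h.symm
  have k5 : ¬ G.Adj e c := fun h => n5 h.symm
  have l1 := m1.symm
  have l2 := m2.symm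
  have l3 := m3.symm
  have l4 := m4.symm
  have l5 := m5.symm
  fin_cases i <;> fin_cases j <;> simp [CAdj, Near, *]

/-- Every finite connected graph without an induced path on five vertices and without an induced
four-cycle has a vertex on all its longest paths. -/
theorem exists_gallai [Finite V] (hconn : G.Connected) (hP : P5Free G) (hC : C4Free G) :
    ∃ v, ∀ l, IsLongest G l → v ∈ l := by
  by_cases h5 : ∀ x, IsMax G x → NoC5At G x
  · exact exists_gallai_main hconn hP hC h5
  · push Not at h5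
    obtain ⟨x, hx, h⟩ := h5
    unfold NoC5At at h
    push Not at h
    obtain ⟨b, c, d, e, h1, h2, h3, h4, h5, n1, n2, n3, n4, n5, -⟩ := h
    have hb := isC5_of h1 h2 h3 h4 h5 n1 n2 n3 n4 n5
    obtain ⟨l0, hl0, hall⟩ := exists_ham hconn hP hC hb hx
    exact ⟨x, fun l hl => mem_of_ham hl0 hall hl x⟩

end Pool.Agent.Lib.MP_288739_co
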